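import Pool.Agent.V1185.GreedyPeriodic

/-!
Unbounded periods away from the resonances `2α ∈ ℤ` in the greedy planar walk.
-/

namespace Pool.Agent.Results.MP_c62c12_an.UnboundedPeriods

open Pool.Agent.V1185.GreedyWalk

/-- Distance to the nearest integer. -/
noncomputable def distInt (x : ℝ) : ℝ := |x - round x|

/-- The negated form of Q1; in addition the examples have `‖2α‖ ≥ 1/4`. -/
theorem result : ∀ c : ℝ, 0 < c → ∃ α : ℝ, 0 < α ∧ Irrational α ∧ ∃ z : ℂ, Admissible α z ∧
    ∃ p : ℕ, IsLeast {p | IsEventualPeriod (signs α z) p} p ∧ c / distInt (2 * α) < p ∧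
      1 / 4 ≤ distInt (2 * α) := by
  intro c hc
  obtain ⟨n, hn⟩ := exists_nat_gt (4 * c)
  obtain ⟨α, h1, h1', h2, z, L, hL, -, hadm, hp⟩ :=
    Pool.Agent.V1185.GreedyPeriodic.exists_periodic (max n 1)
  have hL1 : 1 ≤ L := (le_max_right _ _).trans hL
  have hnL : (n : ℝ) ≤ L := by exact_mod_cast (le_max_left _ _).trans hL
  have hround : round (2 * α) = 1 := by
    rw [round_eq, Int.floor_eq_iff]
    constructor
    · push_cast; linarith
    · push_cast; linarith
  have hd : 1 / 4 ≤ distInt (2 * α) := by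
    rw [distInt, hround, Int.cast_one, abs_sub_comm]
    refine le_trans ?_ (le_abs_self _)
    linarith
  refine ⟨α, by linarith, h2, z, hadm, L, ⟨?_, ?_⟩, ?_, hd⟩
  · exact (hp L).mpr ⟨hL1, dvd_rfl⟩
  · intro p hpp
    obtain ⟨i1, i2⟩ := (hp p).mp hpp
    exact Nat.le_of_dvd (by omega) i2
  · rw [div_lt_iff₀ (by linarith)]
    nlinarith

end Pool.Agent.Results.MP_c62c12_an.UnboundedPeriods
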